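import Pool.Agent.Y8.EP.St

/-! Closing the bootstrap (adapted from `Y5/F/Q10`). -/

open Set Filter Topology MeasureTheory

set_option autoImplicit false

namespace Pool.Agent.Y287.EP

open Pool.Agent.Y8.EP
open Pool.Agent.Y5.E (At Aw Ut Uw loc)
open Pool.Agent.Y5.F (vfk Yk Wk real_ind)

variable {κ lam N : ℝ} {L C ℓ : ℕ → ℝ} {B : ℕ → ℕ → ℝ} {T : ℝ} {x w f : ℕ → ℝ → ℝ}
variable {n : ℕ} {σ : ℕ → ℝ} {t1 t : ℝ}

lemma dd_pos (lam : ℝ) : 0 < dd lam := Real.exp_pos _

lemma exp_half (q : Pe κ lam N L C ℓ B) (j : ℕ) :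
    Real.exp (-(558 / 10000 * (j : ℝ)) * lam) ≤ (1 / 2) ^ j := by
  have h1 : Real.exp (-(558 / 10000) * lam) ≤ 1 / 2 :=
    (q.exp_small (by norm_num)).trans (by norm_num)
  have e : Real.exp (-(558 / 10000 * (j : ℝ)) * lam) = Real.exp (-(558 / 10000) * lam) ^ j := by
    rw [← Real.exp_nat_mul]; congr 1; ring
  rw [e]
  gcongr

lemma Pp_half (q : Pe κ lam N L C ℓ B) (j : ℕ) :
    Real.exp (-(Pp j) * lam) ≤ 1 / 10 ^ 20 * (1 / 2) ^ j := by
  have e : Real.exp (-(Pp j) * lam)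
      = Real.exp (-(4 / 1000) * lam) * Real.exp (-(558 / 10000 * (j : ℝ)) * lam) := by
    rw [← Real.exp_add, Pp]; congr 1; ring
  rw [e]
  have h1 := exp_half q j
  have h2 : Real.exp (-(4 / 1000) * lam) ≤ 1 / 10 ^ 20 := q.exp_small (by norm_num)
  gcongr

lemma σnn (h : Stg κ lam L T x w n σ) : ∀ i ≤ n, 0 ≤ σ i := by
  intro i
  induction i with
  | zero => intro _; rw [h.σ0]
  | succ i ih =>
    intro hi
    have h1 := ih (by omega)
    have h2 := h.σlt i (by omega)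
    linarith

lemma memI (h : Stg κ lam L T x w n σ) (hc : Cur κ lam L T x w n σ t1)
    (ht : t ∈ Ico (σ n) t1) : t ∈ Ico 0 T :=
  ⟨(σnn h n le_rfl).trans ht.1, ht.2.trans_le hc.leT⟩

lemma W_geo (g : Gd κ lam N L C ℓ B T x w f) (ht : t ∈ Ico 0 T) (m : ℕ) {K : ℝ}
    (h : ∀ j : ℕ, w (m + j) t ≤ K * (1 / 2) ^ j) : √(Wk κ w m t) ≤ 2 * K := by
  have hK : 0 ≤ K := by
    have h1 := h 0
    have h2 := g.sy.w0 (m + 0) t ht
    simp at h1 h2
    linarith
  apply Real.sqrt_le_iff.2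
  refine ⟨by positivity, ?_⟩
  have hs : Summable (fun j : ℕ => K ^ 2 * (1 / 2 : ℝ) ^ j) := Gd.geo K
  calc Wk κ w m t ≤ ∑' j : ℕ, K ^ 2 * (1 / 2 : ℝ) ^ j := by
        refine (g.summkw ht m).tsum_le_tsum (fun j => ?_) hs
        refine (mul_le_of_le_one_left (sq_nonneg _) (g.q.κk _)).trans ?_
        have h1 := h j
        have h2 := g.sy.w0 (m + j) t ht
        have h3 : ((1 : ℝ) / 2) ^ j ≤ 1 := pow_le_one₀ (by norm_num) (by norm_num)
        calc w (m + j) t ^ 2 ≤ (K * (1 / 2) ^ j) ^ 2 := by gcongr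
          _ = K ^ 2 * (1 / 2) ^ j * (1 / 2) ^ j := by ring
          _ ≤ K ^ 2 * (1 / 2) ^ j * 1 := by gcongr
          _ = _ := mul_one _
    _ = K ^ 2 * 2 := by
        rw [tsum_mul_left, tsum_geometric_of_lt_one (by norm_num) (by norm_num)]
        norm_num
    _ ≤ _ := by nlinarith [sq_nonneg K]

/-- the shifted mode is at most `1 + C n` in the stage -/
lemma zz_le (g : Gd κ lam N L C ℓ B T x w f) (h : Stg κ lam L T x w n σ)
    (hc : Cur κ lam L T x w n σ t1) (ht : t ∈ Ico (σ n) t1) : zz C x n t ≤ 1 + C n := by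
  have h1 := g.x_le (memI h hc ht) (n + 1)
  have h2 : √(Yk κ x w (n + 1) t) ≤ 1 := by
    rw [Real.sqrt_le_one]
    exact (hc.act t ht).1.le
  have h3 := le_abs_self (x (n + 1) t)
  unfold zz
  linarith

lemma th_nonneg (q : Pe κ lam N L C ℓ B) (t : ℝ) : 0 ≤ th lam C x n t := by
  have := q.lamp
  unfold th
  positivity

lemma th_le (q : Pe κ lam N L C ℓ B) (hz : zz C x n t ≤ 1 + C n) :
    th lam C x n t ≤ 558 / 10000 * lam := by
  have hl := q.lamp
  have hC := q.C_small n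
  have h1 : max (zz C x n t - 8952 / 10000) 0 ≤ 1048 / 10000 + 1 / 10 ^ 20 :=
    max_le (by linarith) (by norm_num)
  have h0 : 0 ≤ max (zz C x n t - 8952 / 10000) 0 := le_max_right _ _
  have h2 : max (zz C x n t - 8952 / 10000) 0 ^ 2 ≤ (1048 / 10000 + 1 / 10 ^ 20) ^ 2 := by gcongr
  unfold th
  calc 1000 / 197 * lam * max (zz C x n t - 8952 / 10000) 0 ^ 2
      ≤ 1000 / 197 * lam * (1048 / 10000 + 1 / 10 ^ 20) ^ 2 := by gcongr
    _ = (1000 / 197 * (1048 / 10000 + 1 / 10 ^ 20) ^ 2) * lam := by ring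
    _ ≤ 558 / 10000 * lam := by
        apply mul_le_mul_of_nonneg_right _ hl.le
        norm_num

lemma bb_le (q : Pe κ lam N L C ℓ B) (hz : zz C x n t ≤ 1 + C n) (j : ℕ) :
    bb lam C x n j t ≤ Real.exp (-(Pp j) * lam) := by
  have h := th_le q hz
  unfold bb
  rw [← Real.exp_add]
  apply Real.exp_le_exp.2
  unfold Pp
  push_cast
  linarith

lemma nb_le (q : Pe κ lam N L C ℓ B) (hz : zz C x n t ≤ 1 + C n) (j : ℕ) :
    nb lam C x n j t ≤ Real.exp (-(Pn j) * lam) := by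
  have h := th_le q hz
  unfold nb
  rw [← Real.exp_add]
  apply Real.exp_le_exp.2
  unfold Pn
  push_cast
  linarith

lemma bb_pos (j : ℕ) : 0 < bb lam C x n j t := by unfold bb; positivity

/-- the bootstrap hypotheses hold at the beginning of the stage -/
lemma hy0 (g : Gd κ lam N L C ℓ B T x w f) (h : Stg κ lam L T x w n σ) :
    Hy κ lam C x w n (σ n) := by
  have q := g.q
  have hC := q.Cp n
  have hl := q.lamp
  have hd := dd_pos lam
  have hI : σ n ∈ Ico 0 T := ⟨σnn h n le_rfl, h.σT⟩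
  refine ⟨?_, ?_, ?_⟩
  · have h1 := h.ng 0
    have e : Pn 0 = 603 / 10000 := by simp [Pn]
    rw [e, add_zero] at h1
    have h2 : Real.exp (-(603 / 10000) * lam)
        = Real.exp (-(601 / 10000) * lam) * Real.exp (-(2 / 10000) * lam) := by
      rw [← Real.exp_add]; congr 1; ring
    have h3 : Real.exp (-(2 / 10000) * lam) ≤ 1 / 10 ^ 20 := q.exp_small (by norm_num)
    have h4 := q.C_lo n
    have h6 : Real.exp (-(603 / 10000) * lam) ≤ C n * (1 / 10 ^ 20) := by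
      rw [h2]
      have := Real.exp_pos (-(601 / 10000) * lam)
      gcongr
    have h7 : C n * (1 / 10 ^ 20) < C n / 4 := by
      have : C n * (1 / 10 ^ 20) < C n * (1 / 4) := by
        apply mul_lt_mul_of_pos_left _ hC
        norm_num
      linarith
    linarith
  · have h1 : √(Yk κ x w (n + 2) (σ n)) ≤ Real.exp (-(Pp 1) * lam) := h.tl 1
    have h2 : Real.exp (-(Pp 1) * lam) ≤ bb lam C x n 0 (σ n) := by
      unfold bb
      have h3 : 1 ≤ Real.exp (th lam C x n (σ n)) := Real.one_le_exp (th_nonneg q _)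
      have h4 := Real.exp_pos (-(Pp (0 + 1)) * lam)
      exact le_mul_of_one_le_right h4.le h3
    have h3 := bb_pos (lam := lam) (C := C) (x := x) (n := n) (t := σ n) 0
    linarith
  · have h1 : √(Wk κ w (n + 1) (σ n)) ≤ 2 * dd lam := by
      refine W_geo g hI (n + 1) (fun j => ?_)
      have h2 := h.tw j
      have h3 := Pp_half q j
      have h4 : (1 : ℝ) / 10 ^ 20 * (1 / 2) ^ j ≤ (1 / 2) ^ j := by
        have : (0 : ℝ) < (1 / 2) ^ j := by positivity
        nlinarith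
      calc w (n + 1 + j) (σ n) ≤ dd lam * Real.exp (-(Pp j) * lam) := h2
        _ ≤ dd lam * (1 / 2) ^ j := by
            have := h3.trans h4
            gcongr
    linarith

/-- the bootstrap hypotheses are an open condition -/
lemma hyopen (g : Gd κ lam N L C ℓ B T x w f) (h : Stg κ lam L T x w n σ)
    (hc : Cur κ lam L T x w n σ t1) (ht : t ∈ Ico (σ n) t1) (hy : Hy κ lam C x w n t) :
    ∀ᶠ τ in 𝓝[Ico (σ n) t1] t, Hy κ lam C x w n τ := by
  have hsub : Ico (σ n) t1 ⊆ Ico 0 T := fun τ hτ => memI h hc hτ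
  have hxc : ContinuousWithinAt (fun τ => x (n + 1) τ) (Ico (σ n) t1) t :=
    ((g.cont (n + 1)).mono hsub) t ht
  have hzc : ContinuousWithinAt (fun τ => zz C x n τ) (Ico (σ n) t1) t :=
    hxc.add continuousWithinAt_const
  have hmc : ContinuousWithinAt (fun τ => max (zz C x n τ - 8952 / 10000) 0) (Ico (σ n) t1) t :=
    (hzc.sub continuousWithinAt_const).max continuousWithinAt_const
  have hthc : ContinuousWithinAt (fun τ => th lam C x n τ) (Ico (σ n) t1) t := by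
    unfold th
    exact continuousWithinAt_const.mul (hmc.pow 2)
  have hbc : ContinuousWithinAt (fun τ => 2 * bb lam C x n 0 τ) (Ico (σ n) t1) t := by
    unfold bb
    exact continuousWithinAt_const.mul (continuousWithinAt_const.mul hthc.rexp)
  have hYc : ContinuousWithinAt (fun τ => √(Yk κ x w (n + 2) τ)) (Ico (σ n) t1) t :=
    (((g.Ycont (n + 2)).mono hsub) t ht).sqrt
  have hWc : ContinuousWithinAt (fun τ => √(Wk κ w (n + 1) τ)) (Ico (σ n) t1) t :=
    (((g.Wcont (n + 1)).mono hsub) t ht).sqrt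
  have e1 : ∀ᶠ τ in 𝓝[Ico (σ n) t1] t, -(C n / 4) < x (n + 1) τ :=
    (tendsto_const_nhds).eventually_lt hxc hy.r
  have e2 : ∀ᶠ τ in 𝓝[Ico (σ n) t1] t, √(Yk κ x w (n + 2) τ) < 2 * bb lam C x n 0 τ :=
    hYc.eventually_lt hbc hy.Y
  have e3 : ∀ᶠ τ in 𝓝[Ico (σ n) t1] t, √(Wk κ w (n + 1) τ) < 4 * dd lam :=
    hWc.eventually_lt tendsto_const_nhds hy.W
  filter_upwards [e1, e2, e3] with τ h1 h2 h3
  exact ⟨h1, h2, h3⟩

theorem t_CLOSE : S_CLOSE := by
  intro hU hB1 hB2 hR κ lam N L C ℓ B T x w f n σ t1 g h hc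
  have q := g.q
  have hC := q.Cp n
  have hd := dd_pos lam
  have ub := (hU κ lam N L C ℓ B T x w f n σ t1 g h hc.leT hc.le).1
  have hbh : ∀ t ∈ Ioo (σ n) t1, (∀ τ ∈ Ico (σ n) t, Hy κ lam C x w n τ) →
      BH κ lam N L C ℓ B T x w f n σ t1 t := fun t ht hy => by
    obtain ⟨h1, h2, _, _⟩ := hR κ lam N L C ℓ B T x w f n σ t1 t g h hc ub ht hy
    exact ⟨g, h, hc, ub, ht, hy, h2, h1⟩
  have hall : ∀ t ∈ Ico (σ n) t1, Hy κ lam C x w n t := by
    refine real_ind (hy0 g h) (fun t ht hy => hyopen g h hc ht hy) (fun t ht hy => ?_)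
    have bh := hbh t ht hy
    obtain ⟨hw1, hj⟩ := hB1 κ lam N L C ℓ B T x w f n σ t1 t bh t ⟨ht.1.le, le_rfl⟩
    have hz := zz_le g h hc (t := t) ⟨ht.1.le, ht.2⟩
    have hI := memI h hc (t := t) ⟨ht.1.le, ht.2⟩
    have hbp := bb_pos (lam := lam) (C := C) (x := x) (n := n) (t := t) 0
    refine ⟨?_, ?_, ?_⟩
    · have h1 := bh.hr
      unfold zz at h1
      linarith
    · have h1 : √(Yk κ x w (n + 2) t) ≤ bb lam C x n 0 t := (hj 0).1
      linarith
    · have h1 : √(Wk κ w (n + 1) t) ≤ 2 * dd lam := by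
        refine W_geo g hI (n + 1) (fun j => ?_)
        rcases j with _ | i
        · simpa using hw1
        · have h2 := (hj i).2
          have e : n + 1 + (i + 1) = n + 2 + i := by ring
          rw [e]
          have h3 := (bb_le q hz i).trans (Pp_half q i)
          have h4 : (1 : ℝ) / 10 ^ 20 * (1 / 2) ^ i ≤ (1 / 2) ^ (i + 1) := by
            have : (0 : ℝ) < (1 / 2) ^ i := by positivity
            rw [pow_succ (1 / 2 : ℝ) i]
            nlinarith
          calc w (n + 2 + i) t ≤ dd lam * bb lam C x n i t := h2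
            _ ≤ dd lam * (1 / 2) ^ (i + 1) := by
                have := h3.trans h4
                gcongr
      linarith
  intro t ht
  have hy : ∀ τ ∈ Ico (σ n) t, Hy κ lam C x w n τ := fun τ hτ => hall τ ⟨hτ.1, hτ.2.trans ht.2⟩
  have bh := hbh t ht hy
  obtain ⟨_, hr8, hX, htime⟩ := hR κ lam N L C ℓ B T x w f n σ t1 t g h hc ub ht hy
  have hb1 := hB1 κ lam N L C ℓ B T x w f n σ t1 t bh
  have hb2 := hB2 κ lam N L C ℓ B T x w f n σ t1 t bh hb1 t ⟨ht.1.le, le_rfl⟩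
  obtain ⟨hw1, hj⟩ := hb1 t ⟨ht.1.le, le_rfl⟩
  have hz := zz_le g h hc (t := t) ⟨ht.1.le, ht.2⟩
  refine ⟨hX, htime, ?_, hw1, fun j => (hj j).1.trans (bb_le q hz j), fun j => ?_, fun j => ?_⟩
  · unfold zz at hr8
    linarith
  · refine (hj j).2.trans ?_
    have := bb_le q hz j
    gcongr
  · have h1 := hb2 j
    have h2 := nb_le q hz j
    linarith

end Pool.Agent.Y287.EP
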